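import Mathlib
import Pool.Agent.Helper35.PX.Goals

/-!
MP_bec853_al, packet X5: the bound for the generic words with the third restriction.
-/

set_option linter.unusedSectionVars false
set_option linter.unusedVariables false

namespace Pool.Agent.Helper24.PX

open FreeGroup Pool.Agent.Helper35.PP Pool.Agent.Helper35.PX
open scoped ENNReal

section gen

variable {β : Type*}

lemma W_tail_le {z C l m : ℝ≥0∞} {T L M : Set (List β)} {g : β}
    (h : ∀ t ∈ T, t ∈ L ∨ ∃ u ∈ M, ∃ t' ∈ T, t = u ++ g :: t')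
    (hL : W z L ≤ l) (hM : W z M ≤ m) (hC : l + m * (z * C) ≤ C) : W z T ≤ C := by
  apply W_le_of_trunc
  intro n
  induction n with
  | zero =>
    have hs : T ∩ {w | w.length ≤ 0} ⊆ L := by
      rintro t ⟨ht, hl⟩
      rcases h t ht with h1 | ⟨u, _, t', _, rfl⟩
      · exact h1
      · exfalso
        have hl' : (u ++ g :: t').length ≤ 0 := hl
        simp at hl'
    exact (W_mono hs).trans (hL.trans (le_trans le_self_add hC))
  | succ n ih =>
    have hs : T ∩ {w | w.length ≤ n + 1} ⊆ L ∪ app M (app {[g]} (T ∩ {w | w.length ≤ n})) := by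
      rintro t ⟨ht, hl⟩
      rcases h t ht with h1 | ⟨u, hu, t', ht', rfl⟩
      · exact Or.inl h1
      · right
        refine ⟨u, hu, g :: t', ⟨[g], rfl, t', ⟨ht', ?_⟩, rfl⟩, rfl⟩
        have hl' : (u ++ g :: t').length ≤ n + 1 := hl
        simp only [List.length_append, List.length_cons] at hl'
        show t'.length ≤ n
        omega
    refine (W_mono hs).trans ((W_union_le _ _ _).trans (le_trans ?_ hC))
    refine add_le_add hL ((W_app_le _ _ _).trans (mul_le_mul' hM ((W_app_le _ _ _).trans ?_)))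
    rw [W_singleton]
    simp only [List.length_cons, List.length_nil, zero_add, pow_one]
    exact mul_le_mul' le_rfl ih

lemma W_tail_le_real {z C l m : ℝ} (hz : 0 ≤ z) (hC0 : 0 ≤ C) (hl : 0 ≤ l) (hm : 0 ≤ m)
    {T L M : Set (List β)} {g : β}
    (h : ∀ t ∈ T, t ∈ L ∨ ∃ u ∈ M, ∃ t' ∈ T, t = u ++ g :: t')
    (hL : W (ENNReal.ofReal z) L ≤ ENNReal.ofReal l)
    (hM : W (ENNReal.ofReal z) M ≤ ENNReal.ofReal m) (hC : l + m * (z * C) ≤ C) :
    W (ENNReal.ofReal z) T ≤ ENNReal.ofReal C := by
  apply W_tail_le h hL hM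
  rw [← ENNReal.ofReal_mul hz, ← ENNReal.ofReal_mul hm, ← ENNReal.ofReal_add hl (by positivity)]
  exact ENNReal.ofReal_le_ofReal hC

lemma W_app_real {z a b : ℝ} (ha : 0 ≤ a) {A B : Set (List β)}
    (hA : W (ENNReal.ofReal z) A ≤ ENNReal.ofReal a)
    (hB : W (ENNReal.ofReal z) B ≤ ENNReal.ofReal b) :
    W (ENNReal.ofReal z) (app A B) ≤ ENNReal.ofReal (a * b) := by
  rw [ENNReal.ofReal_mul ha]
  exact (W_app_le _ _ _).trans (mul_le_mul' hA hB)

lemma W_union_real {z a b : ℝ} (ha : 0 ≤ a) (hb : 0 ≤ b) {A B : Set (List β)}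
    (hA : W (ENNReal.ofReal z) A ≤ ENNReal.ofReal a)
    (hB : W (ENNReal.ofReal z) B ≤ ENNReal.ofReal b) :
    W (ENNReal.ofReal z) (A ∪ B) ≤ ENNReal.ofReal (a + b) := by
  rw [ENNReal.ofReal_add ha hb]
  exact (W_union_le _ _ _).trans (add_le_add hA hB)

lemma W_single_real {z : ℝ} (hz : 0 ≤ z) (w : List β) :
    W (ENNReal.ofReal z) {w} ≤ ENNReal.ofReal (z ^ w.length) := by
  rw [W_singleton, ENNReal.ofReal_pow hz]

end gen

section main

variable {α : Type} [Fintype α] [DecidableEq α]

lemma mem_Yl {i j : α} {x : α × Bool} : x ∈ Yl i j ↔ x.1 ≠ i ∧ x.1 ≠ j := by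
  simp [Yl]

lemma card_Yl {i j : α} (hij : i ≠ j) : (Yl i j).card + 4 = 2 * Fintype.card α := by
  have h1 : Yl i j = ((Finset.univ.erase i).erase j) ×ˢ (Finset.univ : Finset Bool) := by
    ext x
    simp only [mem_Yl, Finset.mem_product, Finset.mem_erase, Finset.mem_univ, and_true]
    tauto
  rw [h1, Finset.card_product, Finset.card_erase_of_mem (by simp [hij.symm]),
    Finset.card_erase_of_mem (Finset.mem_univ _), Finset.card_univ, Finset.card_univ,
    Fintype.card_bool]
  have h2 : 2 ≤ Fintype.card α := by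
    have : Finset.card {i, j} ≤ Fintype.card α := Finset.card_le_univ _
    rwa [Finset.card_pair hij] at this
  omega

/-- the reduced words without `i` and without the inverse of `gj` -/
def LR (i j : α) (gj : α × Bool) : Set (List (α × Bool)) :=
  {w | (∀ x ∈ w, x = gj ∨ (x.1 ≠ i ∧ x.1 ≠ j)) ∧ w.IsChain (fun x y => y ≠ nv x)}

lemma LR_factor {i j : α} {gj : α × Bool} {a b c : List (α × Bool)}
    (h : a ++ b ++ c ∈ LR i j gj) : b ∈ LR i j gj := by
  refine ⟨fun x hx => h.1 x (by simp [hx]), ?_⟩
  have h2 := h.2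
  exact (h2.left_of_append).right_of_append

lemma LR_Zr {i j : α} {gj : α × Bool} {u : List (α × Bool)}
    (h : u ∈ LR i j gj) (hg : gj ∉ u) : u ∈ Zr (Yl i j) := by
  refine ⟨fun x hx => ?_, h.2⟩
  rcases h.1 x hx with rfl | h1
  · exact absurd hx hg
  · exact mem_Yl.2 h1

lemma R3_factor {i j : α} {fl ll : (α × Bool) → (α × Bool)} {A B : Finset (α × Bool)}
    {p v q : List (α × Bool)} (h : R3 i j fl ll A B (p ++ v ++ q)) : R3 i j fl ll A B v := by
  intro l a x y b r hv
  apply h (p ++ l) a x y b (r ++ q)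
  rw [hv]
  simp

/-- the words after a first `gi ... gj`, continued by `gi`, forming a generic chain -/
def Ta (i j : α) (gi gj : α × Bool) (fl ll : (α × Bool) → (α × Bool))
    (A B : Finset (α × Bool)) : Set (List (α × Bool)) :=
  {t | t ∈ LR i j gj ∧ ∃ p, gi ∈ p ∧ gj ∈ p ∧ (p ++ t ++ [gi]).IsChain (GP i j fl ll) ∧
    R3 i j fl ll A B (p ++ t ++ [gi])}

/-- the generic middle blocks -/
def Sa (i j : α) (gi gj : α × Bool) (fl ll : (α × Bool) → (α × Bool))
    (A B : Finset (α × Bool)) : Set (List (α × Bool)) :=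
  {w | w ∈ LR i j gj ∧ ([gi] ++ w ++ [gi]).IsChain (GP i j fl ll) ∧
    R3 i j fl ll A B ([gi] ++ w ++ [gi])}

/-- the middle blocks -/
def MB (i j : α) (gi gj : α × Bool) (fl ll : (α × Bool) → (α × Bool))
    (A B : Finset (α × Bool)) : Set (List (α × Bool)) :=
  {w | w ∈ LR i j gj ∧ R3 i j fl ll A B ([gi] ++ w ++ [gi])}

/-- the tails -/
def Tv (i j : α) (gi gj : α × Bool) (fl ll : (α × Bool) → (α × Bool))
    (A B : Finset (α × Bool)) : Set (List (α × Bool)) :=
  {t | t.IsChain (fun x y => y ≠ nv x) ∧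
    (∀ x ∈ t, x = gi ∨ x = gj ∨ (x.1 ≠ i ∧ x.1 ≠ j)) ∧ R3 i j fl ll A B ([gi] ++ t)}

variable {i j : α} {gi gj : α × Bool} {fl ll : (α × Bool) → (α × Bool)} {A B : Finset (α × Bool)}

lemma LR_split (t : List (α × Bool)) (ht : t ∈ LR i j gj) :
    t ∈ Zr (Yl i j) ∨ ∃ u ∈ Zr (Yl i j), ∃ t' ∈ LR i j gj, t = u ++ gj :: t' := by
  by_cases hg : gj ∈ t
  · right
    obtain ⟨u, t', rfl, hu⟩ := List.eq_append_cons_of_mem hg
    refine ⟨u, LR_Zr (LR_factor (a := []) (c := gj :: t') (by simpa using ht)) hu, t', ?_, rfl⟩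
    exact LR_factor (a := u ++ [gj]) (c := []) (by simpa using ht)
  · left
    exact LR_Zr ht hg

lemma Ta_split (hi : gi.1 = i) (hj : gj.1 = j) (t : List (α × Bool))
    (ht : t ∈ Ta i j gi gj fl ll A B) :
    t ∈ Zr (Yl i j) ∨ ∃ u ∈ Lang (Yl i j) A B, ∃ t' ∈ Ta i j gi gj fl ll A B,
      t = u ++ gj :: t' := by
  obtain ⟨htL, p, hp1, hp2, hc, hr⟩ := ht
  by_cases hg : gj ∈ t
  · right
    obtain ⟨u, t', rfl, hu⟩ := List.eq_append_cons_of_mem hg
    have huZ : u ∈ Zr (Yl i j) :=
      LR_Zr (LR_factor (a := []) (c := gj :: t') (by simpa using htL)) hu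
    refine ⟨u, ⟨huZ.1, ?_⟩, t', ⟨?_, p ++ u ++ [gj], ?_, ?_, ?_, ?_⟩, rfl⟩
    · rw [List.isChain_iff_forall_rel_of_append_cons_cons]
      intro x y u1 u2 hu12
      refine ⟨(List.isChain_iff_forall_rel_of_append_cons_cons.1 huZ.2) hu12, ?_⟩
      rintro ⟨hxA, hyB⟩
      have hx := mem_Yl.1 (huZ.1 x (by rw [hu12]; simp))
      have hy := mem_Yl.1 (huZ.1 y (by rw [hu12]; simp))
      refine hr [] (p ++ u1) x y (u2 ++ gj :: t' ++ [gi]) [] ?_ ?_ hx.1 hx.2 hy.1 hy.2
        ⟨gi, by simp [hp1], hi⟩ ⟨gj, by simp [hp2], hj⟩ ⟨gi, by simp, hi⟩ ⟨gj, by simp, hj⟩ hxA hyB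
      · rw [hu12]; simp
      · have e : p ++ (u ++ gj :: t') ++ [gi] = p ++ u1 ++ x :: y :: (u2 ++ gj :: t' ++ [gi]) := by
          rw [hu12]; simp
        rw [← e]
        exact hc
    · exact LR_factor (a := u ++ [gj]) (c := []) (by simpa using htL)
    · simp [hp1]
    · simp
    · have e : p ++ u ++ [gj] ++ t' ++ [gi] = p ++ (u ++ gj :: t') ++ [gi] := by simp
      rw [e]; exact hc
    · have e : p ++ u ++ [gj] ++ t' ++ [gi] = p ++ (u ++ gj :: t') ++ [gi] := by simp
      rw [e]; exact hr
  · left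
    exact LR_Zr htL hg

lemma Sa_sub : Sa i j gi gj fl ll A B ⊆
    Zr (Yl i j) ∪ app (Zr (Yl i j)) (app {[gj]} (Ta i j gi gj fl ll A B)) := by
  rintro w ⟨hw, hc, hr⟩
  by_cases hg : gj ∈ w
  · right
    obtain ⟨u, t', rfl, hu⟩ := List.eq_append_cons_of_mem hg
    refine ⟨u, LR_Zr (LR_factor (a := []) (c := gj :: t') (by simpa using hw)) hu, gj :: t',
      ⟨[gj], rfl, t', ⟨?_, [gi] ++ u ++ [gj], by simp, by simp, ?_, ?_⟩, rfl⟩, rfl⟩
    · exact LR_factor (a := u ++ [gj]) (c := []) (by simpa using hw)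
    · have e : [gi] ++ u ++ [gj] ++ t' ++ [gi] = [gi] ++ (u ++ gj :: t') ++ [gi] := by simp
      rw [e]; exact hc
    · have e : [gi] ++ u ++ [gj] ++ t' ++ [gi] = [gi] ++ (u ++ gj :: t') ++ [gi] := by simp
      rw [e]; exact hr
  · left
    exact LR_Zr hw hg

lemma MB_sub (hij : i ≠ j) (hi : gi.1 = i) (hj : gj.1 = j) : MB i j gi gj fl ll A B ⊆
    Sa i j gi gj fl ll A B ∪ ({[]} ∪ ((app {[gj]} (LR i j gj) ∪ app {[nv (ll gi)]} (LR i j gj)) ∪
      ((app (LR i j gj) {[gj]} ∪ app (LR i j gj) {[nv (fl gi)]}) ∪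
      (app (LR i j gj) (app {[gj, gj]} (LR i j gj)) ∪
        (app (LR i j gj) (app {[gj, nv (ll gj)]} (LR i j gj)) ∪
        app (LR i j gj) (app {[nv (fl gj), gj]} (LR i j gj))))))) := by
  rintro w ⟨hw, hr⟩
  by_cases hc : ([gi] ++ w ++ [gi]).IsChain (GP i j fl ll)
  · exact Or.inl ⟨hw, hc, hr⟩
  right
  rw [List.isChain_iff_forall_rel_of_append_cons_cons] at hc
  push Not at hc
  obtain ⟨x, y, u1, u2, hu, hGP⟩ := hc
  rcases List.eq_nil_or_concat u2 with rfl | ⟨u2', c2, rfl⟩
  · cases u1 with
    | nil =>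
      left
      simp only [List.cons_append, List.nil_append, List.cons.injEq] at hu
      have h2 : w ++ [gi] = [] ++ [y] := by simpa using hu.2
      exact (List.append_inj' h2 rfl).1
    | cons c1 u1' =>
      right; right; left
      have e1 : w ++ [gi] = (u1' ++ [x]) ++ [y] := by
        simpa using (List.cons.inj (by simpa using hu : gi :: (w ++ [gi]) = c1 :: (u1' ++ [x, y]))).2
      obtain ⟨hw', hy⟩ := List.append_inj' e1 rfl
      have hy' : gi = y := by simpa using hy
      subst hy'
      subst hw'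
      have hx := hw.1 x (by simp)
      rcases hx with rfl | hx
      · left
        exact ⟨u1', LR_factor (a := []) (c := [x]) (by simpa using hw), [x], rfl, rfl⟩
      · right
        refine ⟨u1', LR_factor (a := []) (c := [x]) (by simpa using hw), [x], ?_, rfl⟩
        have h3 : nv x = fl gi := by
          by_contra hne
          apply hGP
          refine ⟨fun h => ?_, fun h => ?_, fun _ => hne⟩
          · rcases h.1 with h4 | h4
            · exact hx.1 h4
            · exact hx.2 h4
          · rcases h with h4 | h4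
            · exact absurd h4 hx.1
            · exact absurd h4 hx.2
        rw [← h3, nv_nv]; rfl
  · cases u1 with
    | nil =>
      right; left
      have e0 : gi :: (w ++ [gi]) = x :: ((y :: u2') ++ [c2]) := by simpa using hu
      have hx : gi = x := (List.cons.inj e0).1
      have e1 : w ++ [gi] = (y :: u2') ++ [c2] := (List.cons.inj e0).2
      obtain ⟨hw', -⟩ := List.append_inj' e1 rfl
      subst hx
      subst hw'
      have hy := hw.1 y (by simp)
      rcases hy with rfl | hy
      · left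
        exact ⟨[y], rfl, u2', LR_factor (a := [y]) (c := []) (by simpa using hw), rfl⟩
      · right
        refine ⟨[y], ?_, u2', LR_factor (a := [y]) (c := []) (by simpa using hw), rfl⟩
        have h3 : nv y = ll gi := by
          by_contra hne
          apply hGP
          refine ⟨fun h => ?_, fun _ => hne, fun h => ?_⟩
          · rcases h.2 with h4 | h4
            · exact hy.1 h4
            · exact hy.2 h4
          · rcases h with h4 | h4
            · exact absurd h4 hy.1
            · exact absurd h4 hy.2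
        rw [← h3, nv_nv]; rfl
    | cons c1 u1' =>
      right; right; right
      have e0 : gi :: (w ++ [gi]) = c1 :: ((u1' ++ x :: y :: u2') ++ [c2]) := by
        simpa using hu
      have e1 : w ++ [gi] = (u1' ++ x :: y :: u2') ++ [c2] := (List.cons.inj e0).2
      obtain ⟨hw', -⟩ := List.append_inj' e1 rfl
      subst hw'
      have hL1 : u1' ∈ LR i j gj := LR_factor (a := []) (c := x :: y :: u2') (by simpa using hw)
      have hL2 : u2' ∈ LR i j gj := LR_factor (a := u1' ++ [x, y]) (c := []) (by simpa using hw)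
      have hx := hw.1 x (by simp)
      have hy := hw.1 y (by simp)
      rcases hx with rfl | hx
      · rcases hy with rfl | hy
        · left
          exact ⟨u1', hL1, [y, y] ++ u2', ⟨[y, y], rfl, u2', hL2, rfl⟩, rfl⟩
        · right; left
          refine ⟨u1', hL1, [x, y] ++ u2', ⟨[x, y], ?_, u2', hL2, rfl⟩, rfl⟩
          have h3 : nv y = ll x := by
            by_contra hne
            apply hGP
            refine ⟨fun h => ?_, fun _ => hne, fun h => ?_⟩
            · rcases h.2 with h4 | h4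
              · exact hy.1 h4
              · exact hy.2 h4
            · rcases h with h4 | h4
              · exact absurd h4 hy.1
              · exact absurd h4 hy.2
          rw [← h3, nv_nv]; rfl
      · rcases hy with rfl | hy
        · right; right
          refine ⟨u1', hL1, [x, y] ++ u2', ⟨[x, y], ?_, u2', hL2, rfl⟩, rfl⟩
          have h3 : nv x = fl y := by
            by_contra hne
            apply hGP
            refine ⟨fun h => ?_, fun h => ?_, fun _ => hne⟩
            · rcases h.1 with h4 | h4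
              · exact hx.1 h4
              · exact hx.2 h4
            · rcases h with h4 | h4
              · exact absurd h4 hx.1
              · exact absurd h4 hx.2
          rw [← h3, nv_nv]; rfl
        · exfalso
          apply hGP
          refine ⟨fun h => ?_, fun h => ?_, fun h => ?_⟩
          · rcases h.1 with h4 | h4
            · exact hx.1 h4
            · exact hx.2 h4
          · rcases h with h4 | h4
            · exact absurd h4 hx.1
            · exact absurd h4 hx.2
          · rcases h with h4 | h4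
            · exact absurd h4 hy.1
            · exact absurd h4 hy.2

lemma Tv_split (t : List (α × Bool)) (ht : t ∈ Tv i j gi gj fl ll A B) :
    t ∈ LR i j gj ∨ ∃ u ∈ MB i j gi gj fl ll A B, ∃ t' ∈ Tv i j gi gj fl ll A B,
      t = u ++ gi :: t' := by
  obtain ⟨hc, hl, hr⟩ := ht
  by_cases hg : gi ∈ t
  · right
    obtain ⟨u, t', rfl, hu⟩ := List.eq_append_cons_of_mem hg
    refine ⟨u, ⟨⟨?_, ?_⟩, ?_⟩, t', ⟨?_, ?_, ?_⟩, rfl⟩
    · intro x hx
      rcases hl x (by simp [hx]) with rfl | h
      · exact absurd hx hu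
      · exact h
    · exact hc.left_of_append
    · apply R3_factor (p := []) (q := t')
      have e : [] ++ ([gi] ++ u ++ [gi]) ++ t' = [gi] ++ (u ++ gi :: t') := by simp
      rw [e]; exact hr
    · exact (hc.right_of_append).tail
    · intro x hx
      exact hl x (by simp [hx])
    · apply R3_factor (p := [gi] ++ u) (q := [])
      have e : [gi] ++ u ++ ([gi] ++ t') ++ [] = [gi] ++ (u ++ gi :: t') := by simp
      rw [e]; exact hr
  · left
    refine ⟨fun x hx => ?_, hc⟩
    rcases hl x hx with rfl | h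
    · exact absurd hx hg
    · exact h

lemma F_sub : {v | v.IsChain (fun x y => y ≠ nv x) ∧
        (∀ x ∈ v, x = gi ∨ x = gj ∨ (x.1 ≠ i ∧ x.1 ≠ j)) ∧ R3 i j fl ll A B v} ⊆
    LR i j gj ∪ app (LR i j gj) (app {[gi]} (Tv i j gi gj fl ll A B)) := by
  rintro t ⟨hc, hl, hr⟩
  by_cases hg : gi ∈ t
  · right
    obtain ⟨u, t', rfl, hu⟩ := List.eq_append_cons_of_mem hg
    refine ⟨u, ⟨?_, ?_⟩, gi :: t', ⟨[gi], rfl, t', ⟨?_, ?_, ?_⟩, rfl⟩, rfl⟩
    · intro x hx
      rcases hl x (by simp [hx]) with rfl | h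
      · exact absurd hx hu
      · exact h
    · exact hc.left_of_append
    · exact (hc.right_of_append).tail
    · intro x hx
      exact hl x (by simp [hx])
    · apply R3_factor (p := u) (q := [])
      have e : u ++ ([gi] ++ t') ++ [] = u ++ gi :: t' := by simp
      rw [e]; exact hr
  · left
    refine ⟨fun x hx => ?_, hc⟩
    rcases hl x hx with rfl | h
    · exact absurd hx hg
    · exact h

/-- **Packet X5.** -/
theorem stmtF0 : StmtF0 := by
  intro α _ _ i j gi gj fl ll A B hr100 hij hi hj hR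
  have hcard := card_Yl hij
  set r : ℝ := (Fintype.card α : ℝ) with hr
  have hr1 : (100 : ℝ) ≤ r := by rw [hr]; exact_mod_cast hr100
  have hN : ((Yl i j).card : ℝ) = 2 * r - 4 := by
    have : (((Yl i j).card + 4 : ℕ) : ℝ) = ((2 * Fintype.card α : ℕ) : ℝ) := by rw [hcard]
    push_cast at this
    rw [hr]
    linarith
  set z : ℝ := 1 / (2 * r - 3) with hzdef
  have h2r : 0 < 2 * r - 3 := by linarith
  have hz0 : 0 < z := by rw [hzdef]; positivity
  have hz1 : z * (2 * r - 3) = 1 := by
    rw [hzdef]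
    field_simp
  have hz197 : z ≤ 1 / 197 := by
    rw [hzdef]
    apply one_div_le_one_div_of_le (by norm_num)
    linarith
  have hrz : r * z = (1 + 3 * z) / 2 := by linarith
  have hzz : z ^ 2 ≤ z * (1 / 197) := by nlinarith
  have hzzz : z ^ 3 ≤ z ^ 2 * (1 / 197) := by nlinarith [sq_nonneg z]
  -- the words in the letters of `Y`
  have hU : W (ENNReal.ofReal z) (Zr (Yl i j)) ≤ ENNReal.ofReal (r - 1) := by
    have hΛ : ∀ x ∈ Yl i j, nv x ∈ Yl i j := by
      intro x hx
      rw [mem_Yl] at hx ⊢
      exact hx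
    have hzΦ : z * ((2 * r - 3) / 2) = 1 / 2 := by linarith
    have h1 := red_super hΛ hz0.le (Φ := (2 * r - 3) / 2) (by positivity) (by
      rw [hzΦ, hN]; linarith)
    refine (W_Ch_le_real hz0.le (fun _ => by positivity) h1).trans ?_
    apply ENNReal.ofReal_le_ofReal
    simp only [hzΦ, Finset.sum_const, nsmul_eq_mul, hN]
    linarith
  have hLR : W (ENNReal.ofReal z) (LR i j gj) ≤ ENNReal.ofReal (2 * r) := by
    refine W_tail_le_real hz0.le (by positivity) (by linarith) (by linarith) LR_split hU hU ?_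
    have : (r - 1) * (z * (2 * r)) = (r - 1) * (1 + 3 * z) := by
      linear_combination (2 * (r - 1)) * hrz
    rw [this]
    nlinarith
  have hTa : W (ENNReal.ofReal z) (Ta i j gi gj fl ll A B) ≤ ENNReal.ofReal (31 / 20 * r) := by
    refine W_tail_le_real hz0.le (by positivity) (by linarith) (by positivity)
      (Ta_split hi hj) hU hR ?_
    have : 7 * r / 10 * (z * (31 / 20 * r)) = 7 / 10 * (31 / 20) * r * ((1 + 3 * z) / 2) := by
      linear_combination (7 / 10 * (31 / 20) * r) * hrz
    rw [this]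
    nlinarith
  have hSa : W (ENNReal.ofReal z) (Sa i j gi gj fl ll A B) ≤
      ENNReal.ofReal ((r - 1) + (r - 1) * (z ^ 1 * (31 / 20 * r))) := by
    refine (W_mono Sa_sub).trans ?_
    refine W_union_real (by linarith) (by
      apply mul_nonneg (by linarith); positivity) hU ?_
    exact W_app_real (by linarith) hU (W_app_real (by positivity) (W_single_real hz0.le _) hTa)
  set om : ℝ := ((r - 1) + (r - 1) * (z ^ 1 * (31 / 20 * r))) + (z ^ 0 +
    ((z ^ 1 * (2 * r) + z ^ 1 * (2 * r)) + (((2 * r) * z ^ 1 + (2 * r) * z ^ 1) +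
      ((2 * r) * (z ^ 2 * (2 * r)) + ((2 * r) * (z ^ 2 * (2 * r)) +
        (2 * r) * (z ^ 2 * (2 * r))))))) with hom
  have hSa0 : 0 ≤ (r - 1) + (r - 1) * (z ^ 1 * (31 / 20 * r)) := by
    apply add_nonneg (by linarith)
    apply mul_nonneg (by linarith)
    positivity
  have hMB : W (ENNReal.ofReal z) (MB i j gi gj fl ll A B) ≤ ENNReal.ofReal om := by
    refine (W_mono (MB_sub hij hi hj)).trans ?_
    have hs := fun w : List (α × Bool) => W_single_real hz0.le w
    refine W_union_real hSa0 (by positivity) hSa ?_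
    refine W_union_real (by positivity) (by positivity) (hs []) ?_
    refine W_union_real (by positivity) (by positivity) ?_ ?_
    · exact W_union_real (by positivity) (by positivity)
        (W_app_real (by positivity) (hs _) hLR) (W_app_real (by positivity) (hs _) hLR)
    refine W_union_real (by positivity) (by positivity) ?_ ?_
    · exact W_union_real (by positivity) (by positivity)
        (W_app_real (by positivity) hLR (hs _)) (W_app_real (by positivity) hLR (hs _))
    refine W_union_real (by positivity) (by positivity) ?_ (W_union_real (by positivity)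
      (by positivity) ?_ ?_)
    · exact W_app_real (by positivity) hLR (W_app_real (by positivity) (hs _) hLR)
    · exact W_app_real (by positivity) hLR (W_app_real (by positivity) (hs _) hLR)
    · exact W_app_real (by positivity) hLR (W_app_real (by positivity) (hs _) hLR)
  have hom0 : 0 ≤ om := by
    rw [hom]
    have : (0 : ℝ) ≤ (z ^ 0 +
      ((z ^ 1 * (2 * r) + z ^ 1 * (2 * r)) + (((2 * r) * z ^ 1 + (2 * r) * z ^ 1) +
      ((2 * r) * (z ^ 2 * (2 * r)) + ((2 * r) * (z ^ 2 * (2 * r)) +
        (2 * r) * (z ^ 2 * (2 * r))))))) := by positivity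
    exact add_nonneg hSa0 this
  have hzom : om * z ≤ 94 / 100 := by
    have e : om * z = 71 / 80 + 201 / 20 * z + 2493 / 80 * z ^ 2 + 27 * z ^ 3 := by
      rw [hom]
      linear_combination (1 + 31 / 20 * (r * z + (1 + 3 * z) / 2) + (8 - 31 / 20) * z +
        12 * z * (r * z + (1 + 3 * z) / 2)) * hrz
    rw [e]
    nlinarith
  have hTv : W (ENNReal.ofReal z) (Tv i j gi gj fl ll A B) ≤ ENNReal.ofReal (100 / 3 * r) := by
    refine W_tail_le_real hz0.le (by positivity) (by positivity) hom0 Tv_split hLR hMB ?_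
    have : om * (z * (100 / 3 * r)) ≤ 94 / 100 * (100 / 3 * r) := by
      rw [← mul_assoc]
      exact mul_le_mul_of_nonneg_right hzom (by positivity)
    linarith
  refine (W_mono F_sub).trans ((W_union_real (by positivity) (by positivity) hLR
    (W_app_real (by positivity) hLR (W_app_real (by positivity) (W_single_real hz0.le _)
      hTv))).trans ?_)
  apply ENNReal.ofReal_le_ofReal
  simp only [List.length_cons, List.length_nil, zero_add, pow_one]
  have : 2 * r * (z * (100 / 3 * r)) = 2 * r * (100 / 3) * ((1 + 3 * z) / 2) := by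
    linear_combination (2 * r * (100 / 3)) * hrz
  rw [this]
  nlinarith

end main

end Pool.Agent.Helper24.PX
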